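import Pool.Agent.Y203.EQ.Cycles
import Pool.Agent.Results.MP_eeb913_an.SiegelMany

/-!
# Uniqueness of equilibrium states fails for every complex Henon map which is not chain transitive

If a complex Henon map `f` is not chain transitive on the set `K` of bounded orbits, in particular
if it has an attracting or a repelling cycle, then there is a Lipschitz bump `b` such that EVERY
line `ψ + ℝ b` of Hölder weights contains a first order phase transition and a weight which does
not have exactly one equilibrium state.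
-/

set_option autoImplicit false

open MeasureTheory Filter Topology

namespace Pool.Agent.Results.MP_eeb913_an.AttractorsBreakUniqueness

open Pool.Agent.Helper179.KS Pool.Agent.Helper179.Eq Pool.Agent.Results.MP_eeb913_an.SiegelMany
open Pool.Agent.Y203.HN Pool.Agent.Y203.EQ

lemma min_one_le_rpow {x α : ℝ} (hx : 0 ≤ x) (hα : 0 < α) (hα1 : α ≤ 1) : min 1 x ≤ x ^ α := by
  rcases le_total x 1 with h | h
  · rcases hx.eq_or_lt with rfl | hx0
    · simp [Real.zero_rpow hα.ne']
    · rw [min_eq_right h]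
      calc x = x ^ (1 : ℝ) := (Real.rpow_one x).symm
        _ ≤ x ^ α := Real.rpow_le_rpow_of_exponent_ge hx0 h hα1
  · rw [min_eq_left h]
    exact Real.one_le_rpow h hα.le

/-- Hölder weights plus multiples of a bump are Hölder continuous. -/
lemma holder_add_bump {ψ : ℂ × ℂ → ℝ} (hψ : IsHolder ψ) (O : Set (ℂ × ℂ)) {ρ : ℝ} (hρ : 0 < ρ)
    (t : ℝ) : IsHolder (fun z => ψ z + t * bump O ρ z) := by
  obtain ⟨α, C, hα, hα1, hC⟩ := hψ
  refine ⟨α, C + |t| * (1 + ρ⁻¹), hα, hα1, ?_⟩
  intro z w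
  set e := Real.sqrt (‖z.1 - w.1‖ ^ 2 + ‖z.2 - w.2‖ ^ 2) with he
  have he0 : 0 ≤ e := Real.sqrt_nonneg _
  have h1 := hC z w
  rw [← he] at h1
  have h2 := abs_bump_sub_le O hρ z w
  have h3 : ‖z - w‖ ≤ e := by
    have h := norm_le_euclid (z - w)
    simpa only [Prod.fst_sub, Prod.snd_sub] using h
  have h4 : 0 < ρ⁻¹ := inv_pos.2 hρ
  have h5 : |bump O ρ z - bump O ρ w| ≤ 1 := by
    have := bump_nonneg O ρ z
    have := bump_nonneg O ρ w
    have := bump_le_one O hρ z
    have := bump_le_one O hρ w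
    rw [abs_le]
    constructor <;> linarith
  have h6 : |bump O ρ z - bump O ρ w| ≤ (1 + ρ⁻¹) * min 1 e := by
    rcases le_total e 1 with h | h
    · rw [min_eq_right h]
      have : ρ⁻¹ * ‖z - w‖ ≤ ρ⁻¹ * e := mul_le_mul_of_nonneg_left h3 h4.le
      nlinarith
    · rw [min_eq_left h]
      linarith
  have h7 := min_one_le_rpow he0 hα hα1
  calc |ψ z + t * bump O ρ z - (ψ w + t * bump O ρ w)|
      = |(ψ z - ψ w) + t * (bump O ρ z - bump O ρ w)| := by
        congr 1; ring
    _ ≤ |ψ z - ψ w| + |t * (bump O ρ z - bump O ρ w)| := abs_add_le _ _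
    _ ≤ C * e ^ α + |t| * ((1 + ρ⁻¹) * e ^ α) := by
        rw [abs_mul]
        refine add_le_add h1 (mul_le_mul_of_nonneg_left ?_ (abs_nonneg t))
        exact h6.trans (mul_le_mul_of_nonneg_left h7 (by linarith))
    _ = _ := by ring

/-- Hölder weights are continuous. -/
lemma holder_continuous {φ : ℂ × ℂ → ℝ} (h : IsHolder φ) : Continuous φ := by
  obtain ⟨α, C, hα, _, hC⟩ := h
  rw [continuous_iff_continuousAt]
  intro w
  rw [ContinuousAt, tendsto_iff_dist_tendsto_zero]
  have h1 : Continuous fun z : ℂ × ℂ =>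
      C * (Real.sqrt (‖z.1 - w.1‖ ^ 2 + ‖z.2 - w.2‖ ^ 2)) ^ α := by
    apply continuous_const.mul
    apply Continuous.rpow_const _ (fun _ => Or.inr hα.le)
    fun_prop
  have h2 := h1.tendsto w
  have h3 : C * (Real.sqrt (‖w.1 - w.1‖ ^ 2 + ‖w.2 - w.2‖ ^ 2)) ^ α = 0 := by
    simp [Real.zero_rpow hα.ne']
  simp only [h3] at h2
  exact squeeze_zero (fun _ => dist_nonneg) (fun z => hC z w) h2

/-- Exchange of the coordinates turns a Henon map of this file into one of the other
convention. -/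
lemma conj_henon {f : ℂ × ℂ → ℂ × ℂ} (hf : IsComplexHenon f) :
    Pool.Agent.Results.MP_636246_an.SinkSaddles.IsComplexHenon (conj f) := by
  induction hf with
  | elementary P a hP ha =>
    have : conj (elementaryHenon P a) =
        Pool.Agent.Results.MP_636246_an.SinkSaddles.elementaryHenon P a := by
      funext z
      rfl
    rw [this]
    exact .elementary P a hP ha
  | comp P a f hP ha hf ih =>
    have : conj (elementaryHenon P a ∘ f) =
        Pool.Agent.Results.MP_636246_an.SinkSaddles.elementaryHenon P a ∘ conj f := by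
      funext z
      rfl
    rw [this]
    exact .comp P a _ hP ha ih

/-- All facts about complex Henon maps that are used. -/
lemma henon_facts {f : ℂ × ℂ → ℂ × ℂ} (hf : IsComplexHenon f) :
    ∃ (g : ℂ × ℂ → ℂ × ℂ) (H : ℝ), Nice f g (boundedOrbits f) H ∧ Differentiable ℂ f ∧
      Differentiable ℂ g ∧ Dich f ∧ Dich g := by
  obtain ⟨g, G⟩ := exists_good (conj_henon hf)
  obtain ⟨H, _, N⟩ := nice_of_good G
  obtain ⟨D1, D2⟩ := dich_of_good G
  have N' := nice_conj N
  have D1' := dich_conj D1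
  rw [conj_conj] at N' D1'
  have hsw : Differentiable ℂ (Prod.swap : ℂ × ℂ → ℂ × ℂ) :=
    differentiable_snd.prodMk differentiable_fst
  refine ⟨conj g, H, N', ?_, ?_, D1', dich_conj D2⟩
  · have h := hsw.comp ((G.smooth.differentiable one_ne_zero).comp hsw)
    have h2 : Prod.swap ∘ conj f ∘ Prod.swap = f := by
      funext z
      simp [conj]
    rwa [h2] at h
  · exact hsw.comp ((G.smooth'.differentiable one_ne_zero).comp hsw)

/-- Eigenvalues at a fixed point of an elementary Henon map. -/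
lemma eig_elementary (P : Polynomial ℂ) (a y : ℂ) {c : ℂ}
    (hc : Module.End.HasEigenvalue
      (fderiv ℂ ((elementaryHenon P a)^[1]) (y, y) : ℂ × ℂ →ₗ[ℂ] ℂ × ℂ) c) :
    c ^ 2 = P.derivative.eval y * c - a := by
  rw [Function.iterate_one] at hc
  have hd : HasFDerivAt (elementaryHenon P a)
      (((P.derivative.eval y) • ContinuousLinearMap.fst ℂ ℂ ℂ -
          a • ContinuousLinearMap.snd ℂ ℂ ℂ).prod (ContinuousLinearMap.fst ℂ ℂ ℂ)) (y, y) := by
    have h1 : HasFDerivAt (fun z : ℂ × ℂ => z.1) (ContinuousLinearMap.fst ℂ ℂ ℂ) (y, y) :=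
      hasFDerivAt_fst
    have h2 : HasFDerivAt (fun z : ℂ × ℂ => z.2) (ContinuousLinearMap.snd ℂ ℂ ℂ) (y, y) :=
      hasFDerivAt_snd
    have h3 : HasDerivAt (fun t : ℂ => P.eval t) (P.derivative.eval y) y := P.hasDerivAt y
    have h4 : HasFDerivAt (fun z : ℂ × ℂ => P.eval z.1)
        ((P.derivative.eval y) • ContinuousLinearMap.fst ℂ ℂ ℂ) (y, y) :=
      HasDerivAt.comp_hasFDerivAt (h₂ := fun t : ℂ => P.eval t) (f := fun z : ℂ × ℂ => z.1)
        (y, y) h3 h1
    exact (h4.sub (h2.const_mul a)).prodMk h1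
  rw [hd.fderiv] at hc
  obtain ⟨v, hv⟩ := hc.exists_hasEigenvector
  have h1 := hv.apply_eq_smul
  have h2 : v.1 = c * v.2 := by
    have := congrArg Prod.snd h1
    simpa using this
  have h3 : P.derivative.eval y * v.1 - a * v.2 = c * v.1 := by
    have := congrArg Prod.fst h1
    simpa using this
  have hv1 : v.2 ≠ 0 := by
    intro h
    apply hv.2
    apply Prod.ext
    · rw [h2, h]; simp
    · exact h
  rw [h2] at h3
  have h4 : (c ^ 2 - (P.derivative.eval y * c - a)) * v.2 = 0 := by linear_combination -h3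
  rcases mul_eq_zero.1 h4 with h | h
  · linear_combination h
  · exact absurd h hv1

lemma att_rep_elementary (P : Polynomial ℂ) (a y : ℂ) (hy : P.eval y = (1 + a) * y)
    (h : ‖P.derivative.eval y‖ + ‖a‖ < 1 ∨ ‖P.derivative.eval y‖ + 1 < ‖a‖) :
    Att (elementaryHenon P a) 1 (y, y) ∨ Rep (elementaryHenon P a) 1 (y, y) := by
  have hfix : (elementaryHenon P a)^[1] (y, y) = (y, y) := by
    simp only [Function.iterate_one, elementaryHenon]
    rw [hy]
    congr 1
    ring
  rcases h with h | h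
  · left
    refine ⟨one_pos, hfix, ?_⟩
    intro c hc
    have h1 := eig_elementary P a y hc
    have h2 : ‖c‖ ^ 2 ≤ ‖P.derivative.eval y‖ * ‖c‖ + ‖a‖ := by
      rw [← norm_pow, h1, ← norm_mul]
      exact norm_sub_le _ _
    by_contra hcon
    push Not at hcon
    have h3 := norm_nonneg a
    have h4 := norm_nonneg (P.derivative.eval y)
    nlinarith
  · right
    refine ⟨one_pos, hfix, ?_⟩
    intro c hc
    have h1 := eig_elementary P a y hc
    have h2 : ‖a‖ ≤ ‖P.derivative.eval y‖ * ‖c‖ + ‖c‖ ^ 2 := by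
      have : a = P.derivative.eval y * c - c ^ 2 := by rw [h1]; ring
      calc ‖a‖ = ‖P.derivative.eval y * c - c ^ 2‖ := by rw [← this]
        _ ≤ ‖P.derivative.eval y * c‖ + ‖c ^ 2‖ := norm_sub_le _ _
        _ = _ := by rw [norm_mul, norm_pow]
    by_contra hcon
    push Not at hcon
    have h3 := norm_nonneg c
    have h4 := norm_nonneg (P.derivative.eval y)
    nlinarith

/-- The conclusion for one map: a Lipschitz bump `b` such that every line in the direction of `b`
has a first order phase transition and a weight without exactly one equilibrium state. -/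
def PhaseTransitions (f : ℂ × ℂ → ℂ × ℂ) : Prop :=
  ∃ b : ℂ × ℂ → ℝ, (∃ L : ℝ, ∀ z w, |b z - b w| ≤ L * ‖z - w‖) ∧ HasCompactSupport b ∧
    (∀ z, 0 ≤ b z ∧ b z ≤ 1) ∧
    ∀ ψ : ℂ × ℂ → ℝ, IsHolder ψ →
      (∀ t : ℝ, IsHolder (fun z => ψ z + t * b z)) ∧
      (∃ t : ℝ, ¬ ∃! ν : Measure (ℂ × ℂ), IsEquilibriumState f (fun z => ψ z + t * b z) ν) ∧
      ∃ tc P₀ : ℝ,
        (∀ t : ℝ, pressure f (fun z => ψ z + t * b z) = ((P₀ + max 0 (t - tc) : ℝ) : EReal)) ∧
        (∀ t : ℝ, tc < t → ∀ ν, IsEquilibriumState f (fun z => ψ z + t * b z) ν →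
          ∀ᵐ z ∂ν, b z = 1) ∧
        (∀ t : ℝ, t < tc → ∀ ν, IsEquilibriumState f (fun z => ψ z + t * b z) ν →
          ∀ᵐ z ∂ν, b z = 0) ∧
        ((∃ ν₁ ν₂, IsEquilibriumState f (fun z => ψ z + tc * b z) ν₁ ∧
            IsEquilibriumState f (fun z => ψ z + tc * b z) ν₂ ∧
            (∀ᵐ z ∂ν₁, b z = 1) ∧ ∀ᵐ z ∂ν₂, b z = 0) ∨
          (∀ t : ℝ, t < tc → ∀ ν, ¬ IsEquilibriumState f (fun z => ψ z + t * b z) ν) ∨
          (∀ t : ℝ, tc < t → ∀ ν, ¬ IsEquilibriumState f (fun z => ψ z + t * b z) ν))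

/-- **Uniqueness of equilibrium states fails for every complex Henon map which is not chain
transitive on its set of bounded orbits**, in particular in the presence of attracting or
repelling cycles; and the constant of Q2 is then at most the supremum of the entropies. -/
theorem result :
    (∀ f : ℂ × ℂ → ℂ × ℂ, IsComplexHenon f → ¬ ChainTransitive f (boundedOrbits f) →
      PhaseTransitions f ∧
      ∀ c S : ℝ, (∀ ν, IsInvariantProb f ν → ksEntropy ν f ≤ (S : EReal)) →
        (∀ φ : ℂ × ℂ → ℝ, IsHolder φ → (∃ l u : ℝ, (∀ z, l ≤ φ z ∧ φ z ≤ u) ∧ u - l < c) →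
          ∃! ν : Measure (ℂ × ℂ), IsEquilibriumState f φ ν) → c ≤ S) ∧
    (∀ f : ℂ × ℂ → ℂ × ℂ, IsComplexHenon f → ∀ (m : ℕ) (p : ℂ × ℂ), (Att f m p ∨ Rep f m p) →
      ¬ ChainTransitive f (boundedOrbits f)) ∧
    (∀ (P : Polynomial ℂ) (a y : ℂ), P.eval y = (1 + a) * y →
      (‖P.derivative.eval y‖ + ‖a‖ < 1 ∨ ‖P.derivative.eval y‖ + 1 < ‖a‖) →
        Att (elementaryHenon P a) 1 (y, y) ∨ Rep (elementaryHenon P a) 1 (y, y)) ∧
    (∀ (d : ℕ) (a : ℂ), 2 ≤ d → a ≠ 0 → ‖a‖ ≠ 1 →
      PhaseTransitions (elementaryHenon (Polynomial.X ^ d) a)) := by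
  have main : ∀ f : ℂ × ℂ → ℂ × ℂ, IsComplexHenon f → ¬ ChainTransitive f (boundedOrbits f) →
      PhaseTransitions f ∧
      ∀ c S : ℝ, (∀ ν, IsInvariantProb f ν → ksEntropy ν f ≤ (S : EReal)) →
        (∀ φ : ℂ × ℂ → ℝ, IsHolder φ → (∃ l u : ℝ, (∀ z, l ≤ φ z ∧ φ z ≤ u) ∧ u - l < c) →
          ∃! ν : Measure (ℂ × ℂ), IsEquilibriumState f φ ν) → c ≤ S := by
    intro f hf hct
    obtain ⟨g, H, N, _, _, _, _⟩ := henon_facts hf
    obtain ⟨V, hVK, hVo, hVne, hVp, hVt⟩ := N.exists_block hct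
    obtain ⟨E, ρ, hρ, hEV, hEcpt, hEne, D⟩ := N.split hVK hVo hVne hVp hVt
    have h1 : ∀ ν, IsInvariantProb f ν → ν Eᶜ = 0 → ∀ᵐ z ∂ν, bump E ρ z = 1 := by
      intro ν _ h
      have h' : ∀ᵐ z ∂ν, z ∈ E := by
        rw [ae_iff]
        exact h
      filter_upwards [h'] with z hz
      exact bump_mem hz
    have h0 : ∀ ν, IsInvariantProb f ν → ν E = 0 → ∀ᵐ z ∂ν, bump E ρ z = 0 := by
      intro ν hν h
      filter_upwards [D.zero ν hν, measure_eq_zero_iff_ae_notMem.1 h] with z hz hz2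
      exact hz hz2
    have hne : ∀ ν₁ ν₂ : Measure (ℂ × ℂ), IsInvariantProb f ν₁ → ν₁ Eᶜ = 0 → ν₂ E = 0 →
        ν₁ ≠ ν₂ := by
      intro ν₁ ν₂ hν a1 a2 heq
      have := hν.1
      have h3 := measure_univ (μ := ν₁)
      rw [← Set.union_compl_self E] at h3
      have h4 := measure_union_le (μ := ν₁) E Eᶜ
      rw [h3, a1, heq, a2] at h4
      simp at h4
    refine ⟨⟨bump E ρ, ⟨ρ⁻¹, fun z w => abs_bump_sub_le E hρ z w⟩, ?_,
      fun z => ⟨bump_nonneg _ _ _, bump_le_one _ hρ _⟩, ?_⟩, ?_⟩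
    · apply HasCompactSupport.of_support_subset_isCompact (hEcpt.cthickening (r := ρ))
      intro z hz
      rw [Function.mem_support] at hz
      apply Metric.thickening_subset_cthickening
      rw [Metric.mem_thickening_iff_infDist_lt hEne]
      by_contra h
      push Not at h
      exact hz (bump_eq_zero hρ h)
    · intro ψ hψ
      obtain ⟨tc, P₀, hP, hgt, hlt, htri, _⟩ := D.phase (holder_continuous hψ)
      refine ⟨fun t => holder_add_bump hψ E hρ t, ?_, tc, P₀, hP,
        fun t ht ν hν => h1 ν hν.1 (hgt t ht ν hν), fun t ht ν hν => h0 ν hν.1 (hlt t ht ν hν), ?_⟩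
      · rcases htri with ⟨ν₁, ν₂, e1, e2, a1, a2⟩ | h | h
        · refine ⟨tc, ?_⟩
          rintro ⟨ν, _, hu⟩
          exact hne ν₁ ν₂ e1.1 a1 a2 ((hu ν₁ e1).trans (hu ν₂ e2).symm)
        · refine ⟨tc - 1, ?_⟩
          rintro ⟨ν, hν, _⟩
          exact h (tc - 1) (by linarith) ν hν
        · refine ⟨tc + 1, ?_⟩
          rintro ⟨ν, hν, _⟩
          exact h (tc + 1) (by linarith) ν hν
      · rcases htri with ⟨ν₁, ν₂, e1, e2, a1, a2⟩ | h | h
        · exact Or.inl ⟨ν₁, ν₂, e1, e2, h1 ν₁ e1.1 a1, h0 ν₂ e2.1 a2⟩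
        · exact Or.inr (Or.inl h)
        · exact Or.inr (Or.inr h)
    · intro c S hS hQ
      by_contra hcS
      push Not at hcS
      have hz : IsHolder (fun _ : ℂ × ℂ => (0 : ℝ)) := ⟨1, 0, one_pos, le_rfl, by simp⟩
      obtain ⟨tc, P₀, _, _, _, htri, hb⟩ := D.phase (ψ := fun _ => (0 : ℝ)) continuous_const
      have htc : |tc| ≤ S := by
        have := hb 0 0 S (fun z => ⟨le_rfl, le_rfl⟩) hS
        simpa using this
      have hw : ∀ t : ℝ, |t| < c → ∃! ν : Measure (ℂ × ℂ),
          IsEquilibriumState f (fun z => 0 + t * bump E ρ z) ν := by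
        intro t ht
        refine hQ _ (holder_add_bump hz E hρ t) ?_
        rcases le_total 0 t with h | h
        · refine ⟨0, t, fun z => ?_, by rwa [abs_of_nonneg h, ← sub_zero t] at ht⟩
          have a1 := bump_nonneg E ρ z
          have a2 := bump_le_one E hρ z
          constructor <;> nlinarith
        · refine ⟨t, 0, fun z => ?_, by rw [abs_of_nonpos h] at ht; linarith⟩
          have a1 := bump_nonneg E ρ z
          have a2 := bump_le_one E hρ z
          constructor <;> nlinarith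
      have htc2 := abs_le.1 htc
      rcases htri with ⟨ν₁, ν₂, e1, e2, a1, a2⟩ | h | h
      · obtain ⟨ν, _, hu⟩ := hw tc (lt_of_le_of_lt htc hcS)
        exact hne ν₁ ν₂ e1.1 a1 a2 ((hu ν₁ e1).trans (hu ν₂ e2).symm)
      · obtain ⟨ν, hν, _⟩ := hw (tc - (c - S) / 2) (by rw [abs_lt]; constructor <;> linarith)
        exact h _ (by linarith) ν hν
      · obtain ⟨ν, hν, _⟩ := hw (tc + (c - S) / 2) (by rw [abs_lt]; constructor <;> linarith)
        exact h _ (by linarith) ν hν
  have cyc : ∀ f : ℂ × ℂ → ℂ × ℂ, IsComplexHenon f → ∀ (m : ℕ) (p : ℂ × ℂ),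
      (Att f m p ∨ Rep f m p) → ¬ ChainTransitive f (boundedOrbits f) := by
    intro f hf m p h
    obtain ⟨g, H, N, df, dg, D1, D2⟩ := henon_facts hf
    exact not_chain_of_cycle N df dg D1 D2 h
  refine ⟨main, cyc, fun P a y hy h => att_rep_elementary P a y hy h, ?_⟩
  intro d a hd ha ha1
  have hd' : 2 ≤ (Polynomial.X ^ d : Polynomial ℂ).natDegree := by
    rw [Polynomial.natDegree_X_pow]; exact hd
  have hf : IsComplexHenon (elementaryHenon (Polynomial.X ^ d) a) :=
    IsComplexHenon.elementary _ a hd' ha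
  refine (main _ hf (cyc _ hf 1 (0, 0) (att_rep_elementary _ a 0 ?_ ?_))).1
  · have h1 : d ≠ 0 := by omega
    rw [Polynomial.eval_pow, Polynomial.eval_X, zero_pow h1, mul_zero]
  · have h0 : (Polynomial.derivative (Polynomial.X ^ d : Polynomial ℂ)).eval 0 = 0 := by
      have h1 : d - 1 ≠ 0 := by omega
      rw [Polynomial.derivative_X_pow, Polynomial.eval_mul, Polynomial.eval_pow,
        Polynomial.eval_X, zero_pow h1, mul_zero]
    rw [h0, norm_zero, zero_add, zero_add]
    exact lt_or_gt_of_ne ha1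

end Pool.Agent.Results.MP_eeb913_an.AttractorsBreakUniqueness
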